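import Pool.Agent.W805.LR.Cons

/-!
# Random stirring at small times: the mean length of a cycle

If the rates at every point sum to at most `r` and `t * r < 1` then the mean length of the cycle of
a point at time `t` is at most `1 / (1 - t * r)`.
-/

set_option autoImplicit false

namespace Pool.Agent.Y243.ST

open Finset Equiv
open Pool.Agent.W805.LR (len cnt stirMass ringSum sum_words)

section graph

variable {V : Type} {n : ℕ}

/-- a letter of the word joins `a` and `b` -/
def Adj (w : Fin n → V × V) (a b : V) : Prop := ∃ i, w i = (a, b) ∨ w i = (b, a)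

/-- connection by letters outside of `S` -/
def Cn (w : Fin n → V × V) (S : Set V) : V → V → Prop :=
  Relation.ReflTransGen fun a b => a ∉ S ∧ b ∉ S ∧ Adj w a b

theorem Adj.symm {w : Fin n → V × V} {a b : V} (h : Adj w a b) : Adj w b a := by
  obtain ⟨i, hi⟩ := h
  exact ⟨i, hi.symm⟩

theorem cn_first {w : Fin n → V × V} {S : Set V} {x y : V} (h : Cn w S x y) :
    x = y ∨ ∃ z, z ∉ insert x S ∧ Adj w x z ∧ Cn w (insert x S) z y := by
  have key : ∀ a, Cn w S a y → (a ≠ x ∧ Cn w (insert x S) a y) ∨ (x = y ∨
      ∃ z, z ∉ insert x S ∧ Adj w x z ∧ Cn w (insert x S) z y) := by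
    intro a ha
    induction ha using Relation.ReflTransGen.head_induction_on with
    | refl =>
      by_cases hxy : x = y
      · exact Or.inr (Or.inl hxy)
      · exact Or.inl ⟨fun h => hxy h.symm, Relation.ReflTransGen.refl⟩
    | @head a b hab _ ih =>
      rcases ih with ⟨hb, hc⟩ | h'
      · have hbS : b ∉ insert x S := by
          intro hmem
          rcases hmem with h1 | h1
          · exact hb h1
          · exact hab.2.1 h1
        by_cases hax : a = x
        · subst hax
          exact Or.inr (Or.inr ⟨b, hbS, hab.2.2, hc⟩)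
        · refine Or.inl ⟨hax, Relation.ReflTransGen.head ⟨?_, hbS, hab.2.2⟩ hc⟩
          intro hmem
          rcases hmem with h1 | h1
          · exact hax h1
          · exact hab.1 h1
      · exact Or.inr h'
  rcases key x h with ⟨h1, _⟩ | h1
  · exact absurd rfl h1
  · exact h1

theorem cn_remove {w : Fin (n + 1) → V × V} {S : Set V} {z y : V} (i : Fin (n + 1))
    (hi : (w i).1 ∈ S ∨ (w i).2 ∈ S) (h : Cn w S z y) :
    Cn (fun j => w (i.succAbove j)) S z y := by
  refine Relation.ReflTransGen.mono (p := fun a b => a ∉ S ∧ b ∉ S ∧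
    Adj (fun j => w (i.succAbove j)) a b) ?_ z y h
  rintro a b ⟨ha, hb, j, hj⟩
  refine ⟨ha, hb, ?_⟩
  have hji : j ≠ i := by
    rintro rfl
    rcases hj with hj | hj <;> rw [hj] at hi <;> rcases hi with hi | hi
    · exact ha hi
    · exact hb hi
    · exact hb hi
    · exact ha hi
  obtain ⟨k, hk⟩ := Fin.exists_succAbove_eq hji
  refine ⟨k, ?_⟩
  show w (i.succAbove k) = _ ∨ w (i.succAbove k) = _
  rw [hk]
  exact hj

theorem cn_prod [DecidableEq V] : ∀ (n : ℕ) (w : Fin n → V × V) (v : V),
    Cn w ∅ v ((List.ofFn fun i => swap (w i).1 (w i).2).prod v) := by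
  intro n
  induction n with
  | zero => intro w v; exact Relation.ReflTransGen.refl
  | succ n ih =>
    intro w v
    rw [List.ofFn_succ, List.prod_cons, Perm.mul_apply]
    have h1 : Cn w ∅ v ((List.ofFn fun i : Fin n => swap (w i.succ).1 (w i.succ).2).prod v) := by
      refine Relation.ReflTransGen.mono ?_ _ _ (ih (fun i => w i.succ) v)
      rintro a b ⟨ha, hb, j, hj⟩
      exact ⟨ha, hb, j.succ, hj⟩
    refine h1.trans ?_
    generalize (List.ofFn fun i : Fin n => swap (w i.succ).1 (w i.succ).2).prod v = u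
    by_cases hu1 : u = (w 0).1
    · rw [hu1, swap_apply_left]
      exact Relation.ReflTransGen.single ⟨id, id, 0, Or.inl rfl⟩
    · by_cases hu2 : u = (w 0).2
      · rw [hu2, swap_apply_right]
        exact Relation.ReflTransGen.single ⟨id, id, 0, Or.inr rfl⟩
      · rw [swap_apply_of_ne_of_ne hu1 hu2]

theorem cn_symm {w : Fin n → V × V} {S : Set V} {x y : V} (h : Cn w S x y) : Cn w S y x := by
  induction h with
  | refl => exact Relation.ReflTransGen.refl
  | tail _ hab ih => exact Relation.ReflTransGen.head ⟨hab.2.1, hab.1, hab.2.2.symm⟩ ih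

theorem cn_cycle [DecidableEq V] [Fintype V] {w : Fin n → V × V} {x y : V}
    (h : ((List.ofFn fun i => swap (w i).1 (w i).2).prod).SameCycle x y) : Cn w ∅ x y := by
  obtain ⟨k, -, hk⟩ := h.exists_pow_eq''
  have key : ∀ (k : ℕ), Cn w ∅ x (((List.ofFn fun i => swap (w i).1 (w i).2).prod ^ k) x) := by
    intro k
    induction k with
    | zero => exact Relation.ReflTransGen.refl
    | succ k ih =>
      rw [pow_succ', Perm.mul_apply]
      exact ih.trans (cn_prod n w _)
  obtain ⟨hk0, hk1⟩ := hk
  rw [← hk1]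
  exact key k

end graph

section count

variable {V : Type} [Fintype V] [DecidableEq V]

open Classical in
/-- the weight of the words connecting `x` to `y` outside of `S` -/
noncomputable def cw (J : V → V → ℝ) (n : ℕ) (S : Set V) (x y : V) : ℝ :=
  ∑ w : Fin n → V × V, (∏ i, J (w i).1 (w i).2 / 2) * (if Cn w S x y then 1 else 0)

/-- the weight of all words -/
theorem sum_all (J : V → V → ℝ) (n : ℕ) :
    ∑ w : Fin n → V × V, ∏ i, J (w i).1 (w i).2 / 2 = (∑ x, ∑ y, J x y / 2) ^ n := by
  rw [← Fintype.sum_prod_type' (f := fun x y => J x y / 2), Fintype.sum_pow]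

theorem cw_succ (J : V → V → ℝ) (hJ : ∀ x y, 0 ≤ J x y) (hs : ∀ x y, J x y = J y x) (n : ℕ)
    (S : Set V) (x y : V) :
    cw J (n + 1) S x y ≤ (if x = y then (∑ x, ∑ y, J x y / 2) ^ (n + 1) else 0) +
      ((n : ℝ) + 1) * ∑ z, J x z * cw J n (insert x S) z y := by
  classical
  have hpt : ∀ w : Fin (n + 1) → V × V, (if Cn w S x y then (1 : ℝ) else 0) ≤
      (if x = y then 1 else 0) + ∑ i : Fin (n + 1), ∑ z, ((if w i = (x, z) then (1 : ℝ) else 0) +
        (if w i = (z, x) then 1 else 0)) *
          (if Cn (fun j => w (i.succAbove j)) (insert x S) z y then 1 else 0) := by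
    intro w
    have hnn : 0 ≤ ∑ i : Fin (n + 1), ∑ z, ((if w i = (x, z) then (1 : ℝ) else 0) +
        (if w i = (z, x) then 1 else 0)) *
          (if Cn (fun j => w (i.succAbove j)) (insert x S) z y then 1 else 0) := by
      positivity
    by_cases h : Cn w S x y
    · rw [if_pos h]
      rcases cn_first h with h1 | ⟨z, hz, ⟨i, hi⟩, hc⟩
      · rw [if_pos h1]; linarith
      · have h2 : Cn (fun j => w (i.succAbove j)) (insert x S) z y := by
          refine cn_remove i ?_ hc
          rcases hi with hi | hi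
          · left; rw [hi]; exact Set.mem_insert _ _
          · right; rw [hi]; exact Set.mem_insert _ _
        have h3 : (1 : ℝ) ≤ ((if w i = (x, z) then (1 : ℝ) else 0) +
            (if w i = (z, x) then 1 else 0)) *
            (if Cn (fun j => w (i.succAbove j)) (insert x S) z y then 1 else 0) := by
          rw [if_pos h2, mul_one]
          rcases hi with hi | hi
          · rw [if_pos hi]
            have : (0 : ℝ) ≤ (if w i = (z, x) then 1 else 0) := by positivity
            linarith
          · rw [if_pos hi]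
            have : (0 : ℝ) ≤ (if w i = (x, z) then 1 else 0) := by positivity
            linarith
        have h4 := Finset.single_le_sum (f := fun z => ((if w i = (x, z) then (1 : ℝ) else 0) +
            (if w i = (z, x) then 1 else 0)) *
            (if Cn (fun j => w (i.succAbove j)) (insert x S) z y then 1 else 0))
          (fun z _ => by positivity) (Finset.mem_univ z)
        have h5 := Finset.single_le_sum (f := fun i : Fin (n + 1) =>
            ∑ z, ((if w i = (x, z) then (1 : ℝ) else 0) + (if w i = (z, x) then 1 else 0)) *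
            (if Cn (fun j => w (i.succAbove j)) (insert x S) z y then 1 else 0))
          (fun i _ => by positivity) (Finset.mem_univ i)
        have h6 : (0 : ℝ) ≤ (if x = y then 1 else 0) := by positivity
        linarith
    · rw [if_neg h]
      have h6 : (0 : ℝ) ≤ (if x = y then 1 else 0) := by positivity
      linarith
  have hw : ∀ w : Fin (n + 1) → V × V, 0 ≤ ∏ i, J (w i).1 (w i).2 / 2 := fun w =>
    Finset.prod_nonneg fun i _ => by have := hJ (w i).1 (w i).2; positivity
  have h1 : cw J (n + 1) S x y ≤ ∑ w : Fin (n + 1) → V × V, (∏ i, J (w i).1 (w i).2 / 2) *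
      ((if x = y then 1 else 0) + ∑ i : Fin (n + 1), ∑ z, ((if w i = (x, z) then (1 : ℝ) else 0) +
        (if w i = (z, x) then 1 else 0)) *
          (if Cn (fun j => w (i.succAbove j)) (insert x S) z y then 1 else 0)) :=
    Finset.sum_le_sum fun w _ => mul_le_mul_of_nonneg_left (hpt w) (hw w)
  have h2 : ∀ i : Fin (n + 1), ∑ w : Fin (n + 1) → V × V, ∑ z, (∏ i, J (w i).1 (w i).2 / 2) *
        (((if w i = (x, z) then (1 : ℝ) else 0) + (if w i = (z, x) then 1 else 0)) *
          (if Cn (fun j => w (i.succAbove j)) (insert x S) z y then 1 else 0)) =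
        ∑ z, J x z * cw J n (insert x S) z y := by
    intro i
    rw [Finset.sum_comm]
    refine Finset.sum_congr rfl fun z _ => ?_
    rw [← (Fin.insertNthEquiv (fun _ : Fin (n + 1) => V × V) i).sum_comp, Fintype.sum_prod_type]
    have h3 : ∀ (e : V × V) (w : Fin n → V × V),
        (∏ j, J ((Fin.insertNthEquiv (fun _ : Fin (n + 1) => V × V) i (e, w)) j).1
          ((Fin.insertNthEquiv (fun _ : Fin (n + 1) => V × V) i (e, w)) j).2 / 2) *
          (((if (Fin.insertNthEquiv (fun _ : Fin (n + 1) => V × V) i (e, w)) i = (x, z)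
            then (1 : ℝ) else 0) +
            (if (Fin.insertNthEquiv (fun _ : Fin (n + 1) => V × V) i (e, w)) i = (z, x)
              then 1 else 0)) *
            (if Cn (fun j => (Fin.insertNthEquiv (fun _ : Fin (n + 1) => V × V) i (e, w))
              (i.succAbove j)) (insert x S) z y then 1 else 0)) =
          (J e.1 e.2 / 2 * ((if e = (x, z) then (1 : ℝ) else 0) +
            (if e = (z, x) then 1 else 0))) *
            ((∏ j, J (w j).1 (w j).2 / 2) * (if Cn w (insert x S) z y then 1 else 0)) := by
      intro e w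
      rw [Fin.prod_univ_succAbove _ i]
      simp only [Fin.insertNthEquiv_apply, Fin.insertNth_apply_same,
        Fin.insertNth_apply_succAbove]
      ring
    simp only [h3]
    simp only [← Finset.mul_sum, ← Finset.sum_mul]
    have h4 : ∑ e : V × V, J e.1 e.2 / 2 * ((if e = (x, z) then (1 : ℝ) else 0) +
        (if e = (z, x) then 1 else 0)) = J x z := by
      simp only [mul_add, Finset.sum_add_distrib, mul_ite, mul_one, mul_zero,
        Finset.sum_ite_eq', Finset.mem_univ, if_true]
      rw [hs z x]; ring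
    rw [h4]
    rfl
  refine h1.trans (le_of_eq ?_)
  have h5 : ∀ w : Fin (n + 1) → V × V, (∏ i, J (w i).1 (w i).2 / 2) *
      ((if x = y then 1 else 0) + ∑ i : Fin (n + 1), ∑ z, ((if w i = (x, z) then (1 : ℝ) else 0) +
        (if w i = (z, x) then 1 else 0)) *
          (if Cn (fun j => w (i.succAbove j)) (insert x S) z y then 1 else 0)) =
      (∏ i, J (w i).1 (w i).2 / 2) * (if x = y then 1 else 0) +
      ∑ i : Fin (n + 1), ∑ z, (∏ i, J (w i).1 (w i).2 / 2) *
        (((if w i = (x, z) then (1 : ℝ) else 0) + (if w i = (z, x) then 1 else 0)) *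
          (if Cn (fun j => w (i.succAbove j)) (insert x S) z y then 1 else 0)) := by
    intro w
    rw [mul_add, Finset.mul_sum]
    simp only [Finset.mul_sum]
  rw [Finset.sum_congr rfl fun w _ => h5 w, Finset.sum_add_distrib, Finset.sum_comm,
    Finset.sum_congr rfl fun i _ => h2 i, ← Finset.sum_mul, sum_all]
  simp only [Finset.sum_const, Finset.card_univ, Fintype.card_fin, nsmul_eq_mul]
  push_cast
  split_ifs <;> simp

theorem cw_nonneg (J : V → V → ℝ) (hJ : ∀ x y, 0 ≤ J x y) (n : ℕ) (S : Set V) (x y : V) :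
    0 ≤ cw J n S x y := by
  classical
  refine Finset.sum_nonneg fun w _ => mul_nonneg (Finset.prod_nonneg fun i _ => ?_) ?_
  · have := hJ (w i).1 (w i).2; positivity
  · positivity

/-- the weights of the words of length `n` -/
theorem cw_sum (J : V → V → ℝ) (hJ : ∀ x y, 0 ≤ J x y) (hs : ∀ x y, J x y = J y x) (r : ℝ)
    (hr : ∀ x, ∑ y, J x y ≤ r) (hr0 : 0 ≤ r) (n : ℕ) : ∀ (S : Set V) (x : V),
    ∑ y, cw J n S x y ≤ ∑ j ∈ range (n + 1), (n.factorial : ℝ) / (n - j).factorial * r ^ j *
      (∑ x, ∑ y, J x y / 2) ^ (n - j) := by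
  induction n with
  | zero =>
    intro S x
    classical
    have h1 : ∀ y, cw J 0 S x y ≤ if x = y then 1 else 0 := by
      intro y
      unfold cw
      simp only [Fintype.sum_unique, Finset.univ_eq_empty, Finset.prod_empty, one_mul]
      by_cases h : Cn (default : Fin 0 → V × V) S x y
      · rcases cn_first h with h2 | ⟨z, _, ⟨i, _⟩, _⟩
        · rw [if_pos h2]; split_ifs <;> norm_num
        · exact i.elim0
      · rw [if_neg h]; split_ifs <;> norm_num
    refine (Finset.sum_le_sum fun y _ => h1 y).trans ?_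
    simp
  | succ n ih =>
    intro S x
    obtain ⟨R, hR⟩ : ∃ R : ℝ, R = ∑ x, ∑ y, J x y / 2 := ⟨_, rfl⟩
    have hR0 : 0 ≤ R := by
      rw [hR]
      exact Finset.sum_nonneg fun x _ => Finset.sum_nonneg fun y _ => by
        have := hJ x y; positivity
    obtain ⟨D, hD⟩ : ∃ D : ℝ, D = ∑ j ∈ range (n + 1), (n.factorial : ℝ) / (n - j).factorial *
      r ^ j * R ^ (n - j) := ⟨_, rfl⟩
    have hD0 : 0 ≤ D := by rw [hD]; positivity
    have h1 : ∑ y, cw J (n + 1) S x y ≤ R ^ (n + 1) + ((n : ℝ) + 1) * (r * D) := by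
      calc ∑ y, cw J (n + 1) S x y ≤ ∑ y, ((if x = y then R ^ (n + 1) else 0) +
            ((n : ℝ) + 1) * ∑ z, J x z * cw J n (insert x S) z y) := by
            refine Finset.sum_le_sum fun y _ => ?_
            rw [hR]
            exact cw_succ J hJ hs n S x y
        _ = R ^ (n + 1) + ((n : ℝ) + 1) * ∑ z, J x z * ∑ y, cw J n (insert x S) z y := by
            rw [Finset.sum_add_distrib, Finset.sum_ite_eq, if_pos (Finset.mem_univ x),
              ← Finset.mul_sum, Finset.sum_comm]
            simp only [Finset.mul_sum]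
        _ ≤ R ^ (n + 1) + ((n : ℝ) + 1) * (r * D) := by
            refine add_le_add le_rfl (mul_le_mul_of_nonneg_left ?_ (by positivity))
            calc ∑ z, J x z * ∑ y, cw J n (insert x S) z y ≤ ∑ z, J x z * D := by
                  refine Finset.sum_le_sum fun z _ => mul_le_mul_of_nonneg_left ?_ (hJ x z)
                  rw [hD, hR]
                  exact ih _ z
              _ = (∑ z, J x z) * D := by rw [Finset.sum_mul]
              _ ≤ r * D := mul_le_mul_of_nonneg_right (hr x) hD0
    refine h1.trans (le_of_eq ?_)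
    rw [Finset.sum_range_succ', ← hR, hD]
    simp only [Nat.sub_zero, pow_zero, mul_one]
    rw [div_self (by positivity), one_mul, add_comm, Finset.mul_sum, Finset.mul_sum]
    congr 1
    refine Finset.sum_congr rfl fun j hj => ?_
    have e1 : n + 1 - (j + 1) = n - j := by omega
    rw [e1, Nat.factorial_succ]
    push_cast
    ring

/-- the mean length of the cycle of a point at small times -/
theorem len_small (J : V → V → ℝ) (hJ : ∀ x y, 0 ≤ J x y) (hs : ∀ x y, J x y = J y x) (r t : ℝ)
    (hr : ∀ x, ∑ y, J x y ≤ r) (hr0 : 0 ≤ r) (ht : 0 ≤ t) (htr : t * r < 1) (x : V) :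
    ∑ g, stirMass J t g * len g x ≤ (1 / (1 - t * r)) * ∑ g, stirMass J t g := by
  classical
  obtain ⟨R, hR⟩ : ∃ R : ℝ, R = ∑ x, ∑ y, J x y / 2 := ⟨_, rfl⟩
  have hR0 : 0 ≤ R := by
    rw [hR]
    exact Finset.sum_nonneg fun x _ => Finset.sum_nonneg fun y _ => by
      have := hJ x y; positivity
  -- words of length n
  have h1 : ∀ n : ℕ, ∑ g, ringSum J n g * len g x ≤ ∑ y, cw J n ∅ x y := by
    intro n
    have e1 : ∑ g, ringSum J n g * len g x = ∑ w : Fin n → V × V,
        (∏ i, J (w i).1 (w i).2 / 2) *
          len (List.ofFn fun i => swap (w i).1 (w i).2).prod x := by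
      simp only [sum_words, Finset.sum_mul]
      rw [Finset.sum_comm]
      refine Finset.sum_congr rfl fun w _ => ?_
      simp only [mul_assoc, ite_mul, one_mul, zero_mul, mul_ite, mul_zero]
      rw [Finset.sum_ite_eq, if_pos (Finset.mem_univ _)]
    rw [e1]
    unfold cw
    rw [Finset.sum_comm]
    refine Finset.sum_le_sum fun w _ => ?_
    rw [← Finset.mul_sum]
    refine mul_le_mul_of_nonneg_left ?_ (Finset.prod_nonneg fun i _ => by
      have := hJ (w i).1 (w i).2; positivity)
    unfold len
    rw [Pool.Agent.W805.LR.cnt_eq]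
    refine Finset.sum_le_sum fun y _ => ?_
    by_cases h : ((List.ofFn fun i => swap (w i).1 (w i).2).prod).SameCycle x y
    · rw [if_pos h, if_pos (cn_cycle h)]
    · rw [if_neg h]; positivity
  have h2 : ∀ n : ℕ, ∑ g, t ^ n / (n.factorial : ℝ) * ringSum J n g * len g x ≤
      ∑ kl ∈ Finset.HasAntidiagonal.antidiagonal n, (t * r) ^ kl.1 * ((t * R) ^ kl.2 / (kl.2.factorial : ℝ)) := by
    intro n
    simp only [mul_assoc]
    rw [← Finset.mul_sum]
    have h3 := (h1 n).trans (cw_sum J hJ hs r hr hr0 n ∅ x)
    have h4 := mul_le_mul_of_nonneg_left h3 (show 0 ≤ t ^ n / (n.factorial : ℝ) by positivity)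
    refine h4.trans (le_of_eq ?_)
    rw [Finset.Nat.sum_antidiagonal_eq_sum_range_succ_mk, Finset.mul_sum, ← hR]
    refine Finset.sum_congr rfl fun j hj => ?_
    have hj' : j ≤ n := Nat.lt_succ_iff.1 (Finset.mem_range.1 hj)
    have e2 : t ^ n = t ^ j * t ^ (n - j) := by rw [← pow_add]; congr 1; omega
    have hf : (n.factorial : ℝ) ≠ 0 := by positivity
    simp only
    rw [e2, mul_pow, mul_pow]
    field_simp
  have hsum1 : Summable fun k : ℕ => (t * r) ^ k :=
    summable_geometric_of_lt_one (by positivity) htr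
  have hsum2 : Summable fun k : ℕ => (t * R) ^ k / (k.factorial : ℝ) :=
    Real.summable_pow_div_factorial _
  have hn1 : Summable fun k : ℕ => ‖(t * r) ^ k‖ := hsum1.norm
  have hn2 : Summable fun k : ℕ => ‖(t * R) ^ k / (k.factorial : ℝ)‖ := hsum2.norm
  have hprod := tsum_mul_tsum_eq_tsum_sum_antidiagonal_of_summable_norm hn1 hn2
  have hsp := (summable_norm_sum_mul_antidiagonal_of_summable_norm hn1 hn2).of_norm
  have hL : ∑ g, stirMass J t g * len g x =
      ∑' n : ℕ, ∑ g, t ^ n / (n.factorial : ℝ) * ringSum J n g * len g x := by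
    rw [Summable.tsum_finsetSum fun g _ =>
      (Pool.Agent.W762.LR.QS.summ J t g).mul_right (len g x)]
    refine Finset.sum_congr rfl fun g _ => ?_
    unfold stirMass
    rw [tsum_mul_right]
  have hsL : Summable fun n : ℕ => ∑ g, t ^ n / (n.factorial : ℝ) * ringSum J n g * len g x :=
    summable_sum fun g _ => (Pool.Agent.W762.LR.QS.summ J t g).mul_right (len g x)
  rw [hL, Pool.Agent.W805.LR.sum_mass, ← hR]
  refine (Summable.tsum_le_tsum h2 hsL hsp).trans (le_of_eq ?_)
  rw [← hprod, tsum_geometric_of_lt_one (by positivity) htr, Real.exp_eq_exp_ℝ,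
    NormedSpace.exp_eq_tsum_div, one_div]

end count

end Pool.Agent.Y243.ST
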