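import Pool.Agent.Y243.ST.Small
import Pool.Agent.TH268.PD.StirOrd
import Pool.Agent.TH268.PD.Seq

/-!
# Random stirring on the torus: row sums of the long range rates, and large cycles
-/

set_option autoImplicit false

namespace Pool.Agent.Y243.ST

open Finset Equiv
open Pool.Agent.W805.LR (len cnt stirMass tdist bdist manyCyc)
open Pool.Agent.TH268.PD (top frac Cyc cyOf)

section rows

variable {d L : ℕ} [NeZero L]

theorem card_ball1 (u : ZMod L) (m : ℕ) :
    #{z : ZMod L | (u - z).valMinAbs.natAbs < m} ≤ 2 * m := by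
  have h1 : #{z : ZMod L | (u - z).valMinAbs.natAbs < m} ≤ #(Finset.Ioo (-(m : ℤ)) m) := by
    refine Finset.card_le_card_of_injOn (fun z => (u - z).valMinAbs) (fun z hz => ?_) ?_
    · have hz' : (u - z).valMinAbs.natAbs < m := by simpa using hz
      simp only [Finset.coe_Ioo, Set.mem_Ioo]
      omega
    · intro z _ z' _ h
      have h2 := ZMod.injective_valMinAbs h
      simpa using h2
  refine h1.trans ?_
  rw [Int.card_Ioo]
  omega

theorem card_ball (x : Fin d → ZMod L) (m : ℕ) :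
    #{y : Fin d → ZMod L | tdist x y < m} ≤ (2 * m) ^ d := by
  classical
  rcases Nat.eq_zero_or_pos m with rfl | hm
  · simp
  have h1 : ({y : Fin d → ZMod L | tdist x y < m} : Finset (Fin d → ZMod L)) ⊆
      Fintype.piFinset fun a => {z : ZMod L | (x a - z).valMinAbs.natAbs < m} := by
    intro y hy
    rw [Finset.mem_filter] at hy
    rw [Fintype.mem_piFinset]
    intro a
    rw [Finset.mem_filter]
    refine ⟨Finset.mem_univ _, lt_of_le_of_lt ?_ hy.2⟩
    exact Finset.le_sup (f := fun a => (x a - y a).valMinAbs.natAbs) (Finset.mem_univ a)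
  refine (Finset.card_le_card h1).trans ?_
  rw [Fintype.card_piFinset]
  refine (Finset.prod_le_prod' fun a _ => card_ball1 (x a) m).trans ?_
  simp

theorem row_tail (x : Fin d → ZMod L) (σ : ℝ) (hσ : 0 < σ) :
    ∑ y, (if x = y then 0 else (tdist x y : ℝ) ^ (-((d : ℝ) + σ))) ≤
      4 ^ d / (1 - (2 : ℝ) ^ (-σ)) := by
  classical
  have hq1 : (2 : ℝ) ^ (-σ) < 1 := Real.rpow_lt_one_of_one_lt_of_neg (by norm_num) (by linarith)
  have hq0 : 0 < (2 : ℝ) ^ (-σ) := by positivity
  obtain ⟨K, hK⟩ : ∃ K : ℕ, K = Nat.log 2 L + 1 := ⟨_, rfl⟩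
  have hpt : ∀ y, (if x = y then (0 : ℝ) else (tdist x y : ℝ) ^ (-((d : ℝ) + σ))) ≤
      ∑ j ∈ range K, (if tdist x y < 2 ^ (j + 1) then ((2 : ℝ) ^ j) ^ (-((d : ℝ) + σ)) else 0) := by
    intro y
    have hnn : ∀ j ∈ range K, (0 : ℝ) ≤
        (if tdist x y < 2 ^ (j + 1) then ((2 : ℝ) ^ j) ^ (-((d : ℝ) + σ)) else 0) := by
      intro j _
      split_ifs <;> positivity
    split_ifs with hxy
    · exact Finset.sum_nonneg hnn
    · have h1 : 1 ≤ tdist x y := Pool.Agent.W805.LR.tdist_pos hxy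
      have h2 : tdist x y ≤ L :=
        (Pool.Agent.W805.LR.tdist_le_bdist x y).trans (Pool.Agent.W805.LR.bdist_lt x y)
      obtain ⟨j, hj⟩ : ∃ j, j = Nat.log 2 (tdist x y) := ⟨_, rfl⟩
      have hjK : j ∈ range K := by
        rw [Finset.mem_range, hK, hj]
        exact Nat.lt_succ_of_le (Nat.log_mono_right h2)
      have h3 : 2 ^ j ≤ tdist x y := by rw [hj]; exact Nat.pow_log_le_self 2 (by omega)
      have h4 : tdist x y < 2 ^ (j + 1) := by
        rw [hj]; exact Nat.lt_pow_succ_log_self (by norm_num) _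
      refine le_trans ?_ (Finset.single_le_sum hnn hjK)
      rw [if_pos h4]
      refine Real.rpow_le_rpow_of_nonpos (by positivity) (by exact_mod_cast h3) ?_
      have : (0 : ℝ) ≤ d := by positivity
      linarith
  refine (Finset.sum_le_sum fun y _ => hpt y).trans ?_
  rw [Finset.sum_comm]
  have h5 : ∀ j ∈ range K, ∑ y : Fin d → ZMod L,
      (if tdist x y < 2 ^ (j + 1) then ((2 : ℝ) ^ j) ^ (-((d : ℝ) + σ)) else 0) ≤
      4 ^ d * ((2 : ℝ) ^ (-σ)) ^ j := by
    intro j _
    rw [← Finset.sum_filter, Finset.sum_const, nsmul_eq_mul]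
    have h6 : (#{y : Fin d → ZMod L | tdist x y < 2 ^ (j + 1)} : ℝ) ≤ (2 * 2 ^ (j + 1)) ^ d := by
      exact_mod_cast card_ball x (2 ^ (j + 1))
    refine (mul_le_mul_of_nonneg_right h6 (by positivity)).trans (le_of_eq ?_)
    have e1 : (2 : ℝ) * 2 ^ (j + 1) = 4 * 2 ^ j := by rw [pow_succ]; ring
    rw [e1, mul_pow, mul_assoc]
    congr 1
    rw [← Real.rpow_natCast (2 : ℝ) j, ← Real.rpow_mul (by norm_num),
      ← Real.rpow_natCast ((2 : ℝ) ^ (j : ℝ)) d, ← Real.rpow_mul (by norm_num),
      ← Real.rpow_add (by norm_num), ← Real.rpow_natCast ((2 : ℝ) ^ (-σ)) j,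
      ← Real.rpow_mul (by norm_num)]
    congr 1
    ring
  refine (Finset.sum_le_sum h5).trans ?_
  rw [← Finset.mul_sum, div_eq_mul_inv]
  refine mul_le_mul_of_nonneg_left ?_ (by positivity)
  rw [← tsum_geometric_of_lt_one hq0.le hq1]
  exact (summable_geometric_of_lt_one hq0.le hq1).sum_le_tsum _ fun i _ => by positivity

end rows

section cycles

variable {V : Type} [Fintype V] [DecidableEq V]

theorem frac_len (g : Perm V) (v : V) : frac g (cyOf g v) = len g v / Fintype.card V := by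
  classical
  have h3 : (Nat.card {w : V // cyOf g w = cyOf g v} : ℝ) = len g v := by
    unfold Pool.Agent.W805.LR.len
    rw [Pool.Agent.TH268.PD.Bad.cnt_eq, Nat.card_eq_fintype_card, Fintype.card_subtype]
    congr 2
    ext w
    rw [Finset.mem_filter, Finset.mem_filter]
    refine and_congr_right fun _ => ?_
    have : cyOf g w = cyOf g v ↔ g.SameCycle w v := by
      unfold cyOf
      exact Quotient.eq (r := Perm.SameCycle.setoid g)
    rw [this]
    exact ⟨fun h => h.symm, fun h => h.symm⟩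
  unfold frac
  rw [h3]

theorem frac_nonneg (g : Perm V) (γ : Cyc g) : 0 ≤ frac g γ := by unfold frac; positivity

theorem top_of_many (g : Perm V) (i : ℕ) (ε : ℝ) (hN : 0 < (Fintype.card V : ℝ))
    (h : manyCyc g (i + 1) (ε * Fintype.card V)) : ε ≤ top (frac g) i := by
  obtain ⟨f, hf, hl⟩ := h
  have : Finite (Cyc g) := Quotient.finite _
  refine le_csSup (Pool.Agent.TH268.PD.top_set_bdd (frac g) i) ?_
  rw [Set.mem_ofPred_eq]
  have h1 : Nat.card (Fin (i + 1)) ≤ Nat.card {γ : Cyc g // ε ≤ frac g γ} := by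
    refine Nat.card_le_card_of_injective (fun a => (⟨cyOf g (f a), ?_⟩ :
      {γ : Cyc g // ε ≤ frac g γ})) ?_
    · rw [frac_len, le_div_iff₀ hN]
      exact hl a
    · intro a b hab
      by_contra hne
      refine hf a b hne ?_
      have h2 : cyOf g (f a) = cyOf g (f b) := congrArg (fun t => t.1) hab
      unfold cyOf at h2
      exact Quotient.eq (r := Perm.SameCycle.setoid g) |>.1 h2
  simpa using h1

theorem sum_len_of_top (g : Perm V) (ε : ℝ) (hε : 0 < ε) (hN : 0 < (Fintype.card V : ℝ))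
    (h : ε ≤ top (frac g) 0) : (ε * Fintype.card V) ^ 2 ≤ ∑ x, len g x := by
  classical
  have : Finite (Cyc g) := Quotient.finite _
  have hV : Nonempty V := by
    rw [← Fintype.card_pos_iff]
    exact_mod_cast hN
  have hne : Nonempty (Cyc g) := ⟨cyOf g hV.some⟩
  obtain ⟨γ₀, hγ₀⟩ := Finite.exists_max (frac g)
  have h1 : ε ≤ frac g γ₀ := by
    have h2 := Pool.Agent.TH268.PD.top_le_add (frac g) (fun _ => 0) (fun _ => le_rfl)
      (frac g γ₀) (frac_nonneg g γ₀) (fun γ => by rw [zero_add]; exact hγ₀ γ) 0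
    have h3 : top (fun _ : Cyc g => (0 : ℝ)) 0 ≤ 0 := by
      unfold top
      refine Real.sSup_nonpos fun x hx => ?_
      rw [Set.mem_ofPred_eq] at hx
      have h0 := lt_of_lt_of_le (Nat.succ_pos 0) hx
      obtain ⟨⟨γ, hγ⟩⟩ := (Nat.card_pos_iff.1 h0).1
      exact hγ
    linarith
  obtain ⟨v, hv⟩ : ∃ v, cyOf g v = γ₀ := by
    induction γ₀ using Quotient.inductionOn with
    | h v => exact ⟨v, rfl⟩
  rw [← hv, frac_len, le_div_iff₀ hN] at h1
  have h2 : ∀ w, g.SameCycle v w → len g w = len g v := by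
    intro w hw
    unfold Pool.Agent.W805.LR.len
    refine Pool.Agent.W805.LR.cnt_congr fun u => ?_
    exact ⟨fun h => hw.trans h, fun h => hw.symm.trans h⟩
  have h3 : len g v * len g v ≤ ∑ x, len g x := by
    have h4 : len g v * len g v = ∑ w, (if g.SameCycle v w then len g v else 0) := by
      have h5 : len g v = ∑ w, (if g.SameCycle v w then (1 : ℝ) else 0) := by
        unfold Pool.Agent.W805.LR.len
        rw [Pool.Agent.W805.LR.cnt_eq]
      nth_rewrite 1 [h5]
      rw [Finset.sum_mul]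
      refine Finset.sum_congr rfl fun w _ => ?_
      split_ifs <;> simp
    rw [h4]
    refine Finset.sum_le_sum fun w _ => ?_
    split_ifs with hw
    · rw [h2 w hw]
    · exact le_trans zero_le_one (Pool.Agent.W805.LR.one_le_len g w)
  nlinarith [mul_pos hε hN]

theorem top_le_zero (g : Perm V) (i : ℕ) : top (frac g) i ≤ top (frac g) 0 := by
  have : Finite (Cyc g) := Quotient.finite _
  rcases Set.eq_empty_or_nonempty {x : ℝ | i + 1 ≤ Nat.card {γ : Cyc g // x ≤ frac g γ}} with h | h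
  · have h1 : top (frac g) i = 0 := by
      unfold top
      rw [h, Real.sSup_empty]
    rw [h1]
    exact Pool.Agent.TH268.PD.top_nonneg _ (frac_nonneg g) 0
  · refine csSup_le_csSup (Pool.Agent.TH268.PD.top_set_bdd (frac g) 0) h fun x hx => ?_
    rw [Set.mem_ofPred_eq] at hx ⊢
    omega

end cycles

end Pool.Agent.Y243.ST
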